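import Mathlib
import Pool.Agent.H25.TChar

set_option autoImplicit false

namespace Pool.Agent.Results.MP_24a371_gt.No

open Set Filter Topology Pool.Agent.H25.TChar

/-- Being T-characterized is not transitive, even along a dually embedded subgroup. -/
theorem result : ∃ (X : Type) (_ : AddCommGroup X) (_ : TopologicalSpace X),
    IsTopologicalAddGroup X ∧ ∃ (X₁ : AddSubgroup X) (X₀ : AddSubgroup X₁),
      (∀ χ : Dual X₁, ∃ ψ : Dual X, ∀ y : X₁, ψ y = χ y) ∧ TCh X₀ ∧ TCh X₁ ∧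
      ¬ TCh (X₀.map X₁.subtype) := by
  let _ : TopologicalSpace (ℕ →₀ ZMod 2) := ⊥
  have : DiscreteTopology (ℕ →₀ ZMod 2) := ⟨rfl⟩
  let c : ZMod 4 →+ ZMod 2 := ZMod.castHom (show 2 ∣ 4 by norm_num) (ZMod 2)
  let ι : ZMod 2 →+ ZMod 4 := AddMonoidHom.mk' (fun x => 2 * (x.val : ZMod 4)) (by decide)
  let X₁ : AddSubgroup (ZMod 4 × (ℕ →₀ ZMod 2)) := (c.comp (AddMonoidHom.fst _ _)).ker
  let s : ℕ → ℕ →₀ ZMod 2 := fun k => Finsupp.onFinset (Finset.range k)
    (fun i => if i < k then 1 else 0) fun i h => by simpa using by_contra fun e => h (if_neg e)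
  let p : ℕ → ZMod 4 × (ℕ →₀ ZMod 2) →+ ZMod 2 := fun n =>
    (Finsupp.applyAddHom n).comp (AddMonoidHom.snd _ _)
  have hs : ∀ n, ∀ᶠ k in atTop, s k n = 1 := fun n => (eventually_gt_atTop n).mono fun k h => if_pos h
  refine ⟨_, inferInstance, inferInstance, inferInstance, X₁,
    ((AddMonoidHom.fst _ _).comp X₁.subtype).ker, fun χ => ?_,
    pos _ (fun n => ⟨ZMod.toAddCircle.comp (((AddMonoidHom.fst _ _) + ι.comp (p n)).comp X₁.subtype),
      continuous_of_discreteTopology⟩) (fun x => lim x.1.1 _ ((ev x.1.2).mono fun n h => by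
        simp [p, h])) ⟨(2, 0), (by decide : c 2 = 0)⟩ (fun k => ⟨(0, s k), rfl⟩) (fun _ => rfl)
      (fun x => ?_) fun n => (hs n).mono fun k h => ?_,
    pos _ (fun n => ⟨ZMod.toAddCircle.comp (c.comp (AddMonoidHom.fst _ _) + p n),
      continuous_of_discreteTopology⟩) (fun x => lim (c x.1) _ ((ev x.2).mono fun n h => by
        simp [p, h])) (1, 0) (fun k => (0, s k)) (fun _ => rfl)
      (fun x => ⟨x.1.val, show c (x.1 - x.1.val • 1) = 0 by simp⟩) fun n => (hs n).mono fun k h => ?_,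
    neg _ (1, 0) 4 four_pos (Prod.ext (by decide) (by simp)) ?_
      (fun x => ⟨x.1.val, ⟨x - x.1.val • (1, 0), AddMonoidHom.mem_ker.2 (by simp)⟩,
        AddMonoidHom.mem_ker.2 (by simp), rfl⟩) ?_⟩
  · obtain ⟨ψ, hψ⟩ := (Module.Baer.of_divisible UnitAddCircle).extension_property_addMonoidHom
      X₁.subtype Subtype.val_injective χ.1
    exact ⟨⟨ψ, continuous_of_discreteTopology⟩, fun y => DFunLike.congr_fun hψ y⟩
  · obtain ⟨m, hm⟩ := (by decide : ∀ a : ZMod 4, c a = 0 → ∃ m : Fin 2, a - m.1 • 2 = 0) _ x.2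
    exact ⟨m, hm⟩
  · show ZMod.toAddCircle (2 + 0 + ι (0 + s k n)) = 0
    rw [h, show (2 + 0 + ι (0 + 1) : ZMod 4) = 0 by decide, map_zero]
  · show ZMod.toAddCircle (c (1 + 0) + (0 + s k n)) = 0
    rw [h, show c (1 + 0) + (0 + 1) = 0 by decide, map_zero]
  · rintro _ ⟨y, hy, rfl⟩
    exact Prod.ext (by simp [show y.1.1 = 0 from hy])
      (by ext; simp [two_smul, CharTwo.add_self_eq_zero])
  · rintro ⟨y, hy, e⟩
    exact absurd ((congrArg Prod.fst e).symm.trans hy) (by decide : ¬ 2 • (1 : ZMod 4) = 0)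

end Pool.Agent.Results.MP_24a371_gt.No
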